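import Mathlib

/-!
# Polar decomposition and the arithmetic-geometric mean inequality
-/

set_option autoImplicit false

namespace Pool.Agent.Lib_helper47.NH

open Matrix Finset

/-- the polar decomposition of a real invertible matrix, with its singular values `l` -/
theorem polar {ι : Type*} [Fintype ι] [DecidableEq ι] (M : Matrix ι ι ℝ) (hM : M.det ≠ 0) :
    ∃ (A : Matrix ι ι ℝ) (l : ι → ℝ), A.transpose * A = 1 ∧ (∀ a, 0 < l a) ∧
      ∏ a, l a = |M.det| ∧ ∑ a, ∑ b, M a b * A a b = ∑ a, l a := by
  classical
  have hH : (M * M.conjTranspose).IsHermitian := isHermitian_mul_conjTranspose_self M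
  have hdet : (M * M.conjTranspose).det = M.det ^ 2 := by
    rw [Matrix.det_mul, Matrix.conjTranspose_eq_transpose_of_trivial, Matrix.det_transpose, sq]
  have hprod : ∏ a, hH.eigenvalues a = M.det ^ 2 := by
    rw [← hdet, hH.det_eq_prod_eigenvalues]; simp
  have hnn : ∀ a, 0 ≤ hH.eigenvalues a :=
    fun a => (Matrix.posSemidef_self_mul_conjTranspose M).eigenvalues_nonneg a
  have hpos : ∀ a, 0 < hH.eigenvalues a := by
    intro a
    refine lt_of_le_of_ne (hnn a) (fun h0 => ?_)
    have : ∏ a, hH.eigenvalues a = 0 := Finset.prod_eq_zero (Finset.mem_univ a) h0.symm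
    rw [hprod] at this
    exact hM (pow_eq_zero_iff (two_ne_zero) |>.1 this)
  obtain ⟨l, hl⟩ : ∃ l : ι → ℝ, l = fun a => Real.sqrt (hH.eigenvalues a) := ⟨_, rfl⟩
  have hlpos : ∀ a, 0 < l a := fun a => by rw [hl]; exact Real.sqrt_pos.2 (hpos a)
  have hl2 : ∀ a, l a * l a = hH.eigenvalues a := fun a => by
    rw [hl]; exact Real.mul_self_sqrt (hnn a)
  obtain ⟨U, hU⟩ : ∃ U : Matrix ι ι ℝ, U = (hH.eigenvectorUnitary : Matrix ι ι ℝ) := ⟨_, rfl⟩
  obtain ⟨V, hV⟩ : ∃ V : Matrix ι ι ℝ, V = U.transpose := ⟨_, rfl⟩
  have hstar : star U = V := by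
    rw [hV, Matrix.star_eq_conjTranspose, Matrix.conjTranspose_eq_transpose_of_trivial]
  have hUV : U * V = 1 := by
    rw [← hstar, hU]; exact Unitary.coe_mul_star_self _
  have hVU : V * U = 1 := by
    rw [← hstar, hU]; exact Unitary.coe_star_mul_self _
  have hS : M * M.transpose = U * diagonal (fun a => l a * l a) * V := by
    have h1 := hH.spectral_theorem
    rw [Unitary.conjStarAlgAut_apply, ← hU, hstar] at h1
    have h2 : M * M.transpose = M * M.conjTranspose := by
      rw [Matrix.conjTranspose_eq_transpose_of_trivial]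
    refine h2.trans (h1.trans ?_)
    have h3 : (RCLike.ofReal ∘ hH.eigenvalues : ι → ℝ) = fun a => l a * l a := by
      funext a
      simp [hl2]
    rw [h3]
  have hVT : V.transpose = U := by rw [hV, Matrix.transpose_transpose]
  have hUT : U.transpose = V := hV.symm
  refine ⟨U * diagonal (fun a => (l a)⁻¹) * V * M, l, ?_, hlpos, ?_, ?_⟩
  · apply mul_eq_one_comm.1
    rw [Matrix.transpose_mul, Matrix.transpose_mul, Matrix.transpose_mul, hVT, hUT,
      Matrix.diagonal_transpose]
    calc U * diagonal (fun a => (l a)⁻¹) * V * M * (M.transpose * (U * (diagonal (fun a => (l a)⁻¹) * V)))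
        = U * diagonal (fun a => (l a)⁻¹) * V * (M * M.transpose) * U
            * diagonal (fun a => (l a)⁻¹) * V := by
          simp only [Matrix.mul_assoc]
      _ = U * (diagonal (fun a => (l a)⁻¹) * ((V * U) * (diagonal (fun a => l a * l a)
            * ((V * U) * diagonal (fun a => (l a)⁻¹))))) * V := by
          rw [hS]; simp only [Matrix.mul_assoc]
      _ = U * V := by
          rw [hVU, Matrix.one_mul, Matrix.one_mul, Matrix.diagonal_mul_diagonal,
            Matrix.diagonal_mul_diagonal]
          have : (fun a => (l a)⁻¹ * (l a * l a * (l a)⁻¹)) = fun _ => (1 : ℝ) := by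
            funext a
            have := (hlpos a).ne'
            field_simp
          rw [this, Matrix.diagonal_one, Matrix.mul_one]
      _ = 1 := hUV
  · rw [hl, ← Real.sqrt_prod _ (fun a _ => hnn a), hprod, Real.sqrt_sq_eq_abs]
  · have e1 : ∑ a, ∑ b, M a b * (U * diagonal (fun a => (l a)⁻¹) * V * M) a b
        = trace ((U * diagonal (fun a => (l a)⁻¹) * V * M) * M.transpose) := by
      simp only [Matrix.trace, Matrix.diag, Matrix.mul_apply (N := M.transpose),
        Matrix.transpose_apply]
      apply Finset.sum_congr rfl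
      intro a _
      apply Finset.sum_congr rfl
      intro b _
      ring
    rw [e1]
    calc trace ((U * diagonal (fun a => (l a)⁻¹) * V * M) * M.transpose)
        = trace (U * diagonal (fun a => (l a)⁻¹) * V * (M * M.transpose)) := by
          rw [Matrix.mul_assoc _ M]
      _ = trace (U * (diagonal (fun a => (l a)⁻¹) * ((V * U) * (diagonal (fun a => l a * l a)))) * V) := by
          rw [hS]; simp only [Matrix.mul_assoc]
      _ = trace (U * diagonal l * V) := by
          rw [hVU, Matrix.one_mul, Matrix.diagonal_mul_diagonal]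
          have : (fun a => (l a)⁻¹ * (l a * l a)) = l := by
            funext a
            have := (hlpos a).ne'
            field_simp
          rw [this]
      _ = trace (diagonal l) := by
          rw [Matrix.trace_mul_comm, ← Matrix.mul_assoc, hVU, Matrix.one_mul]
      _ = ∑ a, l a := by rw [Matrix.trace_diagonal]

/-- arithmetic-geometric mean inequality -/
theorem amgm {ι : Type*} [Fintype ι] (l : ι → ℝ) (hl : ∀ a, 0 < l a) (n : ℕ)
    (hn : Fintype.card ι = n) (hn0 : 1 ≤ n) : ∏ a, l a ≤ ((∑ a, l a) / n) ^ n := by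
  classical
  have hn' : (0 : ℝ) < n := by exact_mod_cast hn0
  have h := Real.geom_mean_le_arith_mean Finset.univ (fun _ : ι => (1 : ℝ)) l
    (fun _ _ => zero_le_one) (by simp [hn]; omega) (fun a _ => (hl a).le)
  simp only [Real.rpow_one, one_mul, Finset.sum_const, Finset.card_univ, hn, nsmul_eq_mul,
    mul_one] at h
  have hp : 0 ≤ ∏ a, l a := Finset.prod_nonneg (fun a _ => (hl a).le)
  have h2 := pow_le_pow_left₀ (Real.rpow_nonneg hp _) h n
  rwa [← Real.rpow_natCast, ← Real.rpow_mul hp, inv_mul_cancel₀ hn'.ne', Real.rpow_one] at h2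

end Pool.Agent.Lib_helper47.NH
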