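import Pool.Agent.Lib_helper97.SN.P1
import Pool.Agent.Lib_helper47.NH.Det

/-!
# `|det M| ≤ r_n ^ n`
-/

set_option autoImplicit false

namespace Pool.Agent.Lib_helper47.NH

open Matrix Finset
open Pool.Agent.Results.MP_c77999_an.StrictMono (r)

/-- uniform weights: the pairing of a sign matrix with an orthogonal matrix -/
theorem pairing_le {ι : Type*} [Fintype ι] [DecidableEq ι] (n : ℕ) (hn : Fintype.card ι = n)
    (M A : Matrix ι ι ℝ) (hM : ∀ a b, M a b = 1 ∨ M a b = -1) (hA : A.transpose * A = 1) :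
    ∑ a, ∑ b, M a b * A a b ≤ n * r n := by
  rcases Nat.eq_zero_or_pos n with h0 | h0
  · subst h0
    haveI : IsEmpty ι := Fintype.card_eq_zero_iff.1 hn
    simp
  have hn' : (0 : ℝ) < n := by exact_mod_cast h0
  have hx : ∑ _a : ι, (1 / Real.sqrt n) ^ 2 = 1 := by
    rw [Finset.sum_const, Finset.card_univ, hn, nsmul_eq_mul, div_pow, one_pow,
      Real.sq_sqrt hn'.le]
    field_simp
  have hc : ∀ v : ι → ℝ, ∑ a, (A.mulVec v a) ^ 2 ≤ ∑ a, v a ^ 2 := by
    intro v
    have e1 : ∑ a, (A.mulVec v a) ^ 2 = (A.mulVec v) ⬝ᵥ (A.mulVec v) := by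
      simp only [dotProduct, sq]
    have e2 : ∑ a, v a ^ 2 = v ⬝ᵥ v := by
      simp only [dotProduct, sq]
    rw [e1, e2, Matrix.dotProduct_mulVec, ← Matrix.mulVec_transpose, Matrix.mulVec_mulVec, hA,
      Matrix.one_mulVec]
  have h := Pool.Agent.Lib_helper97.SN.lower n hn M A hM hc (fun _ => 1 / Real.sqrt n)
    (fun _ => 1 / Real.sqrt n) hx hx
  have e : ∑ a, ∑ b, (1 / Real.sqrt n) * (M a b * A a b) * (1 / Real.sqrt n)
      = (∑ a, ∑ b, M a b * A a b) / n := by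
    have hr : (1 / Real.sqrt n) * (1 / Real.sqrt n) = 1 / (n : ℝ) := by
      rw [div_mul_div_comm, one_mul, Real.mul_self_sqrt hn'.le]
    rw [Finset.sum_div]
    apply Finset.sum_congr rfl
    intro a _
    rw [Finset.sum_div]
    apply Finset.sum_congr rfl
    intro b _
    calc (1 / Real.sqrt n) * (M a b * A a b) * (1 / Real.sqrt n)
        = ((1 / Real.sqrt n) * (1 / Real.sqrt n)) * (M a b * A a b) := by ring
      _ = M a b * A a b / n := by rw [hr]; ring
  rw [e, div_le_iff₀ hn'] at h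
  linarith

theorem r_nonneg {n : ℕ} (hn : 1 ≤ n) : 0 ≤ r n := by
  classical
  have hn' : (0 : ℝ) < n := by exact_mod_cast hn
  have hx : ∑ _a : Fin n, (1 / Real.sqrt n) ^ 2 = 1 := by
    rw [Finset.sum_const, Finset.card_univ, Fintype.card_fin, nsmul_eq_mul, div_pow, one_pow,
      Real.sq_sqrt hn'.le]
    field_simp
  have h := Pool.Agent.Lib_helper97.SN.lower n (Fintype.card_fin n)
    (fun _ _ => (1 : ℝ)) (0 : Matrix (Fin n) (Fin n) ℝ) (fun _ _ => Or.inl rfl)
    (fun v => by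
      simp only [Matrix.zero_mulVec, Pi.zero_apply]
      simp only [ne_eq, OfNat.ofNat_ne_zero, not_false_eq_true, zero_pow, Finset.sum_const_zero]
      exact Finset.sum_nonneg (fun a _ => sq_nonneg _))
    (fun _ => 1 / Real.sqrt n) (fun _ => 1 / Real.sqrt n) hx hx
  simpa using h

/-- the determinant bound -/
theorem det_le {ι : Type*} [Fintype ι] [DecidableEq ι] (n : ℕ) (hn : Fintype.card ι = n)
    (M : Matrix ι ι ℝ) (hM : ∀ a b, M a b = 1 ∨ M a b = -1) : |M.det| ≤ r n ^ n := by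
  rcases Nat.eq_zero_or_pos n with h0 | h0
  · subst h0
    haveI : IsEmpty ι := Fintype.card_eq_zero_iff.1 hn
    simp
  have hn' : (0 : ℝ) < n := by exact_mod_cast h0
  by_cases hd : M.det = 0
  · rw [hd, abs_zero]
    exact pow_nonneg (r_nonneg h0) n
  obtain ⟨A, l, hA, hl, hp, hs⟩ := polar M hd
  have h1 := pairing_le n hn M A hM hA
  rw [hs] at h1
  have h2 := amgm l hl n hn h0
  rw [hp] at h2
  refine h2.trans (pow_le_pow_left₀ (div_nonneg (Finset.sum_nonneg (fun a _ => (hl a).le)) hn'.le)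
    ?_ n)
  rw [div_le_iff₀ hn']
  linarith

/-- the determinant criterion -/
theorem of_det {ι : Type*} [Fintype ι] [DecidableEq ι] (n : ℕ) (hn : Fintype.card ι = n)
    (hn1 : 1 ≤ n) (M : Matrix ι ι ℝ) (hM : ∀ a b, M a b = 1 ∨ M a b = -1)
    (hd : ((n : ℝ) - 1) ^ n < M.det ^ 2) : Real.sqrt ((n : ℝ) - 1) < r n := by
  have h0 : (0 : ℝ) ≤ (n : ℝ) - 1 := by
    have : (1 : ℝ) ≤ n := by exact_mod_cast hn1
    linarith
  by_contra hc
  have hc' := not_lt.1 hc
  have h1 := det_le n hn M hM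
  have h2 := pow_le_pow_left₀ (r_nonneg hn1) hc' n
  have h3 : |M.det| ≤ Real.sqrt ((n : ℝ) - 1) ^ n := h1.trans h2
  have h4 : |M.det| ^ 2 ≤ (Real.sqrt ((n : ℝ) - 1) ^ n) ^ 2 :=
    pow_le_pow_left₀ (abs_nonneg _) h3 2
  rw [sq_abs, ← pow_mul, mul_comm n 2, pow_mul, Real.sq_sqrt h0] at h4
  linarith

end Pool.Agent.Lib_helper47.NH
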