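import Pool.Agent.Lib_helper97.SN.EW
import Pool.Agent.Lib_helper97.SN.Grp
import Pool.Agent.Lib_helper78.PAL.E3pow

/-!
# The order `2 (q ^ 2 + q + 1)`
-/

set_option autoImplicit false

namespace Pool.Agent.Lib_helper47.NH

open Matrix
open Pool.Agent.Results.MP_c77999_an.StrictMono (r)

/-- `ew_group` with `n = 2 l` -/
theorem pair_order {G : Type} [AddCommGroup G] [Fintype G] [DecidableEq G] (n : ℕ)
    (hn : n = 2 * Fintype.card G) (h2 : 2 ≤ Fintype.card G) (a b : G → ℝ)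
    (ha : ∀ g, a g = 1 ∨ a g = -1) (hb : ∀ g, b g = 1 ∨ b g = -1)
    (h : ∀ g, g ≠ 0 → ∑ x, (a x * a (x + g) + b x * b (x + g)) = 2) :
    Real.sqrt ((n : ℝ) - 1) < r n := by
  have h1 := Pool.Agent.Lib_helper97.SN.ew_group (Fintype.card G) rfl h2 a b ha hb h
  subst hn
  push_cast
  exact h1

/-- `ew_order` with `n = 2 b` -/
theorem ew_n (n b : ℕ) (hn : n = 2 * b) (hb : 2 ≤ b)
    (M : Matrix (Fin 2 × Fin b) (Fin 2 × Fin b) ℝ) (hM : ∀ p q, M p q = 1 ∨ M p q = -1)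
    (hG : ∀ p q, (M * M.transpose) p q = if p = q then (n : ℝ) else if p.1 = q.1 then 2 else 0) :
    Real.sqrt ((n : ℝ) - 1) < r n := by
  subst hn
  push_cast at hG ⊢
  exact Pool.Agent.Lib_helper97.SN.ew_order b hb M hM hG

/-- the family `n = 2 (q ^ 2 + q + 1)` -/
theorem family (p k n : ℕ) (hp : p.Prime) (hp2 : p ≠ 2) (hk : 1 ≤ k)
    (hn : n = 2 * ((p ^ k) ^ 2 + p ^ k + 1)) : Real.sqrt ((n : ℝ) - 1) < r n := by
  obtain ⟨G, i1, i2, i3, a, b, hc, ha, hb, h⟩ :=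
    Pool.Agent.Lib_helper78.E3.singer_pow p k hp hp2 hk
  refine pair_order n (by rw [hc, hn]) ?_ a b ha hb h
  rw [hc]
  have : 1 ≤ p ^ k := Nat.one_le_pow _ _ hp.pos
  omega

end Pool.Agent.Lib_helper47.NH
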