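import Pool.Agent.Lib_helper92.EW.All

/-!
# The order `2 (q ^ 2 + q + 1)` for every prime power `q`
-/

set_option autoImplicit false

namespace Pool.Agent.Lib_helper47.NH

open Pool.Agent.Results.MP_c77999_an.StrictMono (r)

/-- the family `n = 2 (q ^ 2 + q + 1)`, `q` any prime power -/
theorem family_all (p k n : ℕ) (hp : p.Prime) (hk : 1 ≤ k)
    (hn : n = 2 * ((p ^ k) ^ 2 + p ^ k + 1)) : Real.sqrt ((n : ℝ) - 1) < r n := by
  have h := Pool.Agent.Lib_helper92.EW.q1_all p k hp hk
  subst hn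
  push_cast at h ⊢
  exact h

end Pool.Agent.Lib_helper47.NH
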